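import Pool.Agent.Helper92.TN.GoalsH
import Pool.Agent.Helper24.SGB.ELAW

/-!
# Project TN (MP_a41896_nt), part IND: packet RELB (a relation of bounded degree between `X_b` and the `x(υ_i)`)
-/

set_option autoImplicit false

open MvPolynomial

namespace Pool.Agent.Helper34.TN.RELB

open WeierstrassCurve
open Pool.Agent.Helper29.BL Pool.Agent.Helper92.Ru Pool.Agent.Helper42.SG
open Pool.Agent.Helper60.T3 (WL IP zd)
open Pool.Agent.Helper92.TN

noncomputable section

/-! ## A polynomial which does not vanish identically in the last variable -/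

theorem eval_opt {K L ι : Type} [Field K] [Field L] [Algebra K L] (f : ι → L) (c : L)
    (G : MvPolynomial (Option ι) K) :
    ((optionEquivLeft K ι G).map (aeval f : MvPolynomial ι K →ₐ[K] L).toRingHom).eval c =
      aeval (fun o : Option ι => o.elim c f) G := by
  have h : ((Polynomial.evalRingHom c).comp
      ((Polynomial.mapRingHom (aeval f : MvPolynomial ι K →ₐ[K] L).toRingHom).comp
        (optionEquivLeft K ι).toAlgHom.toRingHom)) =
      (aeval (fun o : Option ι => o.elim c f) : MvPolynomial (Option ι) K →ₐ[K] L).toRingHom := by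
    refine MvPolynomial.ringHom_ext (fun r => ?_) (fun o => ?_)
    · simp
    · cases o with
      | none => simp
      | some i => simp
  exact congrArg (fun φ : MvPolynomial (Option ι) K →+* L => φ G) h

theorem exists_ne {K L ι : Type} [Field K] [Field L] [Algebra K L] [Infinite L] (f : ι → L)
    (hf : AlgebraicIndependent K f) (G : MvPolynomial (Option ι) K) (hG : G ≠ 0) :
    ∃ c : L, aeval (fun o : Option ι => o.elim c f) G ≠ 0 := by
  by_contra hcon
  push Not at hcon
  have h1 : (optionEquivLeft K ι G).map (aeval f : MvPolynomial ι K →ₐ[K] L).toRingHom = 0 := by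
    refine Polynomial.funext fun c => ?_
    rw [eval_opt, hcon c]
    simp
  have h2 : optionEquivLeft K ι G = 0 := by
    have hinj : Function.Injective (aeval f : MvPolynomial ι K →ₐ[K] L).toRingHom := hf
    exact (Polynomial.map_eq_zero_iff hinj).1 h1
  exact hG ((map_eq_zero_iff _ (optionEquivLeft K ι).injective).1 h2)

/-! ## Levels -/

/-- a scale of properties closed under the field operations -/
structure Cls {K Ω : Type} [Field K] [Field Ω] [Algebra K Ω] (κ : IntermediateField K Ω)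
    (Q : ℕ → Ω → Prop) : Prop where
  mono : ∀ {k l f}, Q k f → k ≤ l → Q l f
  cst : ∀ {f}, f ∈ κ → Q 0 f
  add : ∀ {k l f g}, Q k f → Q l g → Q (max k l + 1) (f + g)
  mul : ∀ {k l f g}, Q k f → Q l g → Q (max k l + 1) (f * g)
  inv : ∀ {k f}, Q k f → Q (k + 1) f⁻¹
  sqrt : ∀ {k f y}, Q k f → y ^ 2 = f → Q (k + 1) y

namespace Cls

variable {K Ω : Type} [Field K] [Field Ω] [Algebra K Ω] {κ : IntermediateField K Ω}
  {Q : ℕ → Ω → Prop} (h : Cls κ Q)

include h

theorem al (r : K) : Q 0 (algebraMap K Ω r) := h.cst (κ.algebraMap_mem r)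

theorem nat (n : ℕ) : Q 0 (n : Ω) := h.cst (natCast_mem κ n)

theorem neg {k : ℕ} {f : Ω} (hf : Q k f) : Q (k + 1) (-f) := by
  have h1 := h.mul (h.cst (f := (-1 : Ω)) (κ.neg_mem κ.one_mem)) hf
  rw [neg_one_mul] at h1
  exact h.mono h1 (by omega)

theorem sub {k l : ℕ} {f g : Ω} (hf : Q k f) (hg : Q l g) : Q (max k l + 2) (f - g) := by
  rw [sub_eq_add_neg]
  exact h.mono (h.add hf (h.neg hg)) (by omega)

theorem pw {k : ℕ} {f : Ω} (hf : Q k f) (m : ℕ) : Q (k + m) (f ^ m) := by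
  induction m with
  | zero =>
    rw [pow_zero]
    exact h.mono (h.cst κ.one_mem) (Nat.zero_le _)
  | succ m ih =>
    rw [pow_succ]
    exact h.mono (h.mul ih hf) (by omega)

theorem div {k l : ℕ} {f g : Ω} (hf : Q k f) (hg : Q l g) : Q (max k l + 2) (f / g) := by
  rw [div_eq_mul_inv]
  exact h.mono (h.mul hf (h.inv hg)) (by omega)

/-- the polynomial `B` -/
theorem bf (W : Affine K) {k : ℕ} {X : Ω} (hX : Q k X) : Q (k + 8) (Bf (WL Ω W) X) := by
  unfold Bf
  have b2 : Q 0 (WL Ω W).b₂ := by rw [WeierstrassCurve.map_b₂]; exact h.al _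
  have b4 : Q 0 (WL Ω W).b₄ := by rw [WeierstrassCurve.map_b₄]; exact h.al _
  have b6 : Q 0 (WL Ω W).b₆ := by rw [WeierstrassCurve.map_b₆]; exact h.al _
  have n4 : Q 0 (4 : Ω) := by exact_mod_cast h.nat 4
  have n2 : Q 0 (2 : Ω) := by exact_mod_cast h.nat 2
  exact h.mono (h.add (h.add (h.add (h.mul n4 (h.pw hX 3)) (h.mul b2 (h.pw hX 2)))
    (h.mul (h.mul n2 b4) hX)) b6) (by omega)

/-- the numerator `A` of the duplication formula -/
theorem af (W : Affine K) {k : ℕ} {X : Ω} (hX : Q k X) :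
    Q (k + 10) (X ^ 4 - (WL Ω W).b₄ * X ^ 2 - 2 * (WL Ω W).b₆ * X - (WL Ω W).b₈) := by
  have b4 : Q 0 (WL Ω W).b₄ := by rw [WeierstrassCurve.map_b₄]; exact h.al _
  have b6 : Q 0 (WL Ω W).b₆ := by rw [WeierstrassCurve.map_b₆]; exact h.al _
  have b8 : Q 0 (WL Ω W).b₈ := by rw [WeierstrassCurve.map_b₈]; exact h.al _
  have n2 : Q 0 (2 : Ω) := by exact_mod_cast h.nat 2
  exact h.mono (h.sub (h.sub (h.sub (h.pw hX 4) (h.mul b4 (h.pw hX 2)))
    (h.mul (h.mul n2 b6) hX)) b8) (by omega)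

theorem th (W : Affine K) {k : ℕ} {c t : Ω} (hc : Q k c) (ht : Q k t) :
    Q (k + 8) (2 * (t + c) * (t * c) + (WL Ω W).b₂ * (t * c) + (WL Ω W).b₄ * (t + c) +
      (WL Ω W).b₆) := by
  have b2 : Q 0 (WL Ω W).b₂ := by rw [WeierstrassCurve.map_b₂]; exact h.al _
  have b4 : Q 0 (WL Ω W).b₄ := by rw [WeierstrassCurve.map_b₄]; exact h.al _
  have b6 : Q 0 (WL Ω W).b₆ := by rw [WeierstrassCurve.map_b₆]; exact h.al _
  have n2 : Q 0 (2 : Ω) := by exact_mod_cast h.nat 2
  exact h.mono (h.add (h.add (h.add (h.mul (h.mul n2 (h.add ht hc)) (h.mul ht hc))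
    (h.mul b2 (h.mul ht hc))) (h.mul b4 (h.add ht hc))) b6) (by omega)

theorem psi [DecidableEq Ω] (W : Affine K) {k : ℕ} (P : (WL Ω W).Point) (hP : P ≠ 0)
    (hX : Q k (xc P)) : Q (k + 9) (ps P) :=
  h.mono (h.sqrt (h.bf W hX) (Pool.Agent.Helper24.SGB.ps_sq P hP)) (by omega)

/-- the sum of two points -/
theorem sum (hLAW : ELAW) [CharZero K] [DecidableEq Ω] (W : Affine K) (hW : W.IsElliptic) {k : ℕ}
    (P R : (WL Ω W).Point) (hP : P ≠ 0) (hR : R ≠ 0) (hPR : P + R ≠ 0) (hne : xc P ≠ xc R)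
    (h1 : Q k (xc P)) (h2 : Q k (xc R)) (h3 : Q k (ps P)) (h4 : Q k (ps R)) :
    Q (k + 12) (xc (P + R)) := by
  have : CharZero Ω := charZero_of_injective_algebraMap (algebraMap K Ω).injective
  have := hW
  have : (WL Ω W).IsElliptic := inferInstance
  obtain ⟨-, -, -, e1, -⟩ := hLAW Ω (WL Ω W) P R 0 two_ne_zero hP hR (by rwa [pow_zero, one_nsmul])
  rw [pow_zero, one_nsmul] at e1
  have n2 : Q 0 (2 : Ω) := by exact_mod_cast h.nat 2
  have e2 : 2 * (xc P + xc R) * (xc P * xc R) + (WL Ω W).b₂ * (xc P * xc R) +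
      (WL Ω W).b₄ * (xc P + xc R) + (WL Ω W).b₆ - ps P * ps R =
      xc (P + R) * (2 * (xc P - xc R) ^ 2) := by
    simp only [law, Ph, Th, Uh, Rr, if_true, Bool.false_eq_true, if_false, mul_one, one_pow] at e1
    exact e1
  have hd : 2 * (xc P - xc R) ^ 2 ≠ 0 := mul_ne_zero two_ne_zero (pow_ne_zero _ (sub_ne_zero.2 hne))
  have e3 : xc (P + R) = (2 * (xc P + xc R) * (xc P * xc R) + (WL Ω W).b₂ * (xc P * xc R) +
      (WL Ω W).b₄ * (xc P + xc R) + (WL Ω W).b₆ - ps P * ps R) / (2 * (xc P - xc R) ^ 2) := by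
    rw [e2, mul_div_cancel_right₀ _ hd]
  rw [e3]
  exact h.mono (h.div (h.sub (h.th W h2 h1) (h.mul h3 h4)) (h.mul n2 (h.pw (h.sub h1 h2) 2)))
    (by omega)

/-- the difference of two points -/
theorem dif (hLAW : ELAW) (hDUP : EDUP) [CharZero K] [DecidableEq Ω] (W : Affine K)
    (hW : W.IsElliptic) {k : ℕ} (P R : (WL Ω W).Point) (hP : P ≠ 0) (hR : R ≠ 0)
    (h1 : Q k (xc P)) (h2 : Q k (xc R)) (h3 : Q k (ps P)) (h4 : Q k (ps R)) :
    Q (k + 14) (xc (P - R)) := by
  have : CharZero Ω := charZero_of_injective_algebraMap (algebraMap K Ω).injective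
  have := hW
  have : (WL Ω W).IsElliptic := inferInstance
  have n2 : Q 0 (2 : Ω) := by exact_mod_cast h.nat 2
  by_cases hd0 : P - R = 0
  · rw [hd0]
    exact h.mono (h.cst κ.zero_mem) (Nat.zero_le _)
  by_cases hs0 : P + R = 0
  · -- `R = -P`
    have hRP : R = -P := by rw [eq_neg_iff_add_eq_zero, add_comm]; exact hs0
    have h2P : P - R = 2 • P := by rw [hRP, sub_neg_eq_add, two_nsmul]
    rw [h2P] at hd0 ⊢
    obtain ⟨-, f2, f3, -⟩ := hDUP Ω (WL Ω W) P 1 hP
    rw [pow_one] at f2 f3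
    have f3' := f3 hd0
    have f2' : (Ph (WL Ω W) 1 (xc P)).2 ≠ 0 := fun hh => hd0 (f2.1 hh)
    have e3 : xc (2 • P) = (Ph (WL Ω W) 1 (xc P)).1 / (Ph (WL Ω W) 1 (xc P)).2 := by
      rw [f3', mul_div_cancel_right₀ _ f2']
    rw [e3]
    have g1 : (Ph (WL Ω W) 1 (xc P)).1 =
        (xc P) ^ 4 - (WL Ω W).b₄ * (xc P) ^ 2 - 2 * (WL Ω W).b₆ * (xc P) - (WL Ω W).b₈ := by
      simp only [Ph, Ah]
      ring
    have g2 : (Ph (WL Ω W) 1 (xc P)).2 = Bf (WL Ω W) (xc P) := by
      simp only [Ph, Bh, Bf]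
      ring
    rw [g1, g2]
    exact h.mono (h.div (h.af W h1) (h.bf W h1)) (by omega)
  · obtain ⟨-, e1, -⟩ := hLAW Ω (WL Ω W) P R 0 two_ne_zero hP hR (by rwa [pow_zero, one_nsmul])
    rw [pow_zero, one_nsmul] at e1
    obtain ⟨e0, e1⟩ := e1 hd0
    simp only [law, Ph, Th, Uh, Rr, Bool.false_eq_true, if_false, mul_one, one_pow] at e0 e1
    have e3 : xc (P - R) = (2 * (xc P + xc R) * (xc P * xc R) + (WL Ω W).b₂ * (xc P * xc R) +
        (WL Ω W).b₄ * (xc P + xc R) + (WL Ω W).b₆ + ps P * ps R) / (2 * (xc P - xc R) ^ 2) := by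
      rw [e1, mul_div_cancel_right₀ _ e0]
    rw [e3]
    exact h.mono (h.div (h.add (h.th W h2 h1) (h.mul h3 h4)) (h.mul n2 (h.pw (h.sub h1 h2) 2)))
      (by omega)

end Cls

/-! ## The scale from ELMW -/

theorem rw_mono {κ L ι : Type} [Field κ] [Field L] [Algebra κ L] {z : ι → L} {f : L} {d d' : ℕ}
    (h : Rw κ z f d) (hd : d ≤ d') : Rw κ z f d' := by
  obtain ⟨P, h1, h2, h3⟩ := h
  exact ⟨P, h1, fun o => (h2 o).trans hd, h3⟩

theorem deg_tot {κ τ : Type} [Field κ] {P : MvPolynomial τ κ} {d : ℕ} (h : P.totalDegree ≤ d)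
    (o : τ) : degreeOf o P ≤ d := (degreeOf_le_totalDegree P o).trans h

theorem rw_cst {κ L ι : Type} [Field κ] [Field L] [Algebra κ L] (z : ι → L) (c : κ) :
    Rw κ z (algebraMap κ L c) 1 := by
  refine ⟨X none - C c, ?_, deg_tot ?_, ?_⟩
  · intro h
    have h1 := congrArg (aeval (fun _ : Option ι => (c + 1 : κ))) h
    simp at h1
  · refine (totalDegree_sub _ _).trans (max_le ?_ ?_)
    · rw [totalDegree_X]
    · rw [totalDegree_C]
      exact Nat.zero_le _
  · simp

theorem rw_z {κ L ι : Type} [Field κ] [Field L] [Algebra κ L] (z : ι → L) (i : ι) :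
    Rw κ z (z i) 1 := by
  refine ⟨X none - X (some i), ?_, deg_tot ?_, ?_⟩
  · intro h
    have h1 := congrArg (aeval (fun o : Option ι => o.elim (1 : κ) fun _ => 0)) h
    simp at h1
  · refine (totalDegree_sub _ _).trans (max_le ?_ ?_) <;> rw [totalDegree_X]
  · simp

/-- the next level -/
def nx (E : ℕ → ℕ → ℕ → ℕ → ℕ) (n D0 d : ℕ) : ℕ :=
  max d (max (E n 1 d 2) (max (E n 2 d 2) (E n n d D0)))

/-- the levels -/
def Bd (E : ℕ → ℕ → ℕ → ℕ → ℕ) (n D0 : ℕ) : ℕ → ℕ
  | 0 => 1
  | k + 1 => nx E n D0 (Bd E n D0 k)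

theorem Bd_mono (E : ℕ → ℕ → ℕ → ℕ → ℕ) (n D0 : ℕ) : Monotone (Bd E n D0) :=
  monotone_nat_of_le_succ fun _ => le_max_left _ _

/-- the property of the function `E` -/
def EP (E : ℕ → ℕ → ℕ → ℕ → ℕ) : Prop :=
  ∀ (w s d D : ℕ) (κ L ι : Type) [Field κ] [Field L] [Algebra κ L] [Fintype ι]
    (z : ι → L) (f : Fin s → L) (y : L) (G : MvPolynomial (Option (Fin s)) κ),
    Fintype.card ι = w → AlgebraicIndependent κ z → (∀ i, Rw κ z (f i) d) →
    (∀ o, degreeOf o G ≤ D) → aeval (fun o : Option (Fin s) => o.elim y f) G = 0 →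
    (∃ c : L, aeval (fun o : Option (Fin s) => o.elim c f) G ≠ 0) → Rw κ z y (E w s d D)

section scale

variable {E : ℕ → ℕ → ℕ → ℕ → ℕ} (hE : EP E) {K Ω : Type} [Field K] [Field Ω] [Algebra K Ω]
  [Infinite Ω] (κ : IntermediateField K Ω) {ι : Type} [Fintype ι] (z : ι → Ω) (n D0 : ℕ)
  (hn : Fintype.card ι = n) (hz : AlgebraicIndependent κ z)

include hE hn hz

omit [Infinite Ω] in
theorem cls : Cls κ (fun k f => Rw κ z f (Bd E n D0 k)) where
  mono := fun h hkl => rw_mono h (Bd_mono E n D0 hkl)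
  cst := fun {f} hf => rw_cst z (⟨f, hf⟩ : κ)
  add := by
    intro k l f g hf hg
    have hf' := rw_mono hf (Bd_mono E n D0 (le_max_left k l))
    have hg' := rw_mono hg (Bd_mono E n D0 (le_max_right k l))
    have h1 := hE n 2 (Bd E n D0 (max k l)) 2 κ Ω ι z ![f, g] (f + g)
      (X none - X (some 0) - X (some 1)) hn hz
      (fun i => by fin_cases i; exacts [hf', hg']) (deg_tot ?_) ?_ ⟨f + g + 1, ?_⟩
    · exact rw_mono h1 ((le_max_left _ _).trans ((le_max_right _ _).trans (le_max_right _ _)))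
    · refine (totalDegree_sub _ _).trans (max_le ((totalDegree_sub _ _).trans (max_le ?_ ?_)) ?_) <;>
        rw [totalDegree_X] <;> exact one_le_two
    · simp
    · have e1 : f + g + 1 - f - g = 1 := by ring
      simp [e1]
  mul := by
    intro k l f g hf hg
    have hf' := rw_mono hf (Bd_mono E n D0 (le_max_left k l))
    have hg' := rw_mono hg (Bd_mono E n D0 (le_max_right k l))
    have h1 := hE n 2 (Bd E n D0 (max k l)) 2 κ Ω ι z ![f, g] (f * g)
      (X none - X (some 0) * X (some 1)) hn hz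
      (fun i => by fin_cases i; exacts [hf', hg']) (deg_tot ?_) ?_ ⟨f * g + 1, ?_⟩
    · exact rw_mono h1 ((le_max_left _ _).trans ((le_max_right _ _).trans (le_max_right _ _)))
    · refine (totalDegree_sub _ _).trans (max_le ?_ ((totalDegree_mul _ _).trans ?_))
      · rw [totalDegree_X]; exact one_le_two
      · rw [totalDegree_X, totalDegree_X]
    · simp
    · simp
  inv := by
    intro k f hf
    by_cases hf0 : f = 0
    · rw [hf0, inv_zero]
      have := rw_cst z (0 : κ)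
      rw [map_zero] at this
      exact rw_mono this (Bd_mono E n D0 (Nat.zero_le (k + 1)))
    have h1 := hE n 1 (Bd E n D0 k) 2 κ Ω ι z ![f] f⁻¹
      (X none * X (some 0) - 1) hn hz
      (fun i => by fin_cases i; exact hf) (deg_tot ?_) ?_ ⟨0, ?_⟩
    · exact rw_mono h1 ((le_max_left _ _).trans (le_max_right _ _))
    · refine (totalDegree_sub _ _).trans (max_le ((totalDegree_mul _ _).trans ?_) ?_)
      · rw [totalDegree_X, totalDegree_X]
      · rw [totalDegree_one]; exact Nat.zero_le _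
    · simp [inv_mul_cancel₀ hf0]
    · simp
  sqrt := by
    intro k f y hf hy
    have hc : ∃ c : Ω, c ^ 2 - f ≠ 0 := by
      by_cases hf0 : f = 0
      · exact ⟨1, by rw [hf0]; simp⟩
      · exact ⟨0, by simpa using hf0⟩
    obtain ⟨c, hc⟩ := hc
    have h1 := hE n 1 (Bd E n D0 k) 2 κ Ω ι z ![f] y
      (X none ^ 2 - X (some 0)) hn hz
      (fun i => by fin_cases i; exact hf) (deg_tot ?_) ?_ ⟨c, ?_⟩
    · exact rw_mono h1 ((le_max_left _ _).trans (le_max_right _ _))
    · refine (totalDegree_sub _ _).trans (max_le ((totalDegree_pow _ _).trans ?_) ?_)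
      · rw [totalDegree_X]
      · rw [totalDegree_X]; exact one_le_two
    · simp [hy]
    · simpa using hc

/-- a root of `g` over the other coordinates -/
theorem root {σ : Type} [Fintype σ] [DecidableEq σ] (a : σ) (hσ : Fintype.card σ = n + 1)
    (g : MvPolynomial σ K) (hg : g ≠ 0) (hD : ∀ i, degreeOf i g ≤ D0) (Y : σ → Ω) (k : ℕ)
    (hY : ∀ c, c ≠ a → Rw κ z (Y c) (Bd E n D0 k)) (hg0 : aeval Y g = 0)
    (hind : AlgebraicIndependent K (fun c : {c : σ // c ≠ a} => Y c)) :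
    Rw κ z (Y a) (Bd E n D0 (k + 1)) := by
  have hcard : Fintype.card {c : σ // c ≠ a} = n := by
    rw [Fintype.card_subtype_compl, Fintype.card_subtype_eq, hσ]
    rfl
  let e : {c : σ // c ≠ a} ≃ Fin n := Fintype.equivFinOfCardEq hcard
  let φ : σ ≃ Option (Fin n) := (Equiv.optionSubtypeNe a).symm.trans (Equiv.optionCongr e)
  have hφa : φ a = none := by simp [φ]
  have hφc : ∀ c (hc : c ≠ a), φ c = some (e ⟨c, hc⟩) := by
    intro c hc
    simp [φ, Equiv.optionSubtypeNe_symm_of_ne hc]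
  set G0 : MvPolynomial (Option (Fin n)) K := rename φ g with hG0
  set G : MvPolynomial (Option (Fin n)) κ := map (algebraMap K κ) G0 with hG
  have hG0ne : G0 ≠ 0 := fun h => hg (rename_injective φ φ.injective (h.trans (map_zero _).symm))
  set f : Fin n → Ω := fun i => Y (e.symm i) with hf
  have hfun : (fun o : Option (Fin n) => o.elim (Y a) f) ∘ φ = Y := by
    funext c
    by_cases hc : c = a
    · subst hc
      simp [hφa]
    · simp [hφc c hc, hf]
  have hval : ∀ c : Ω, aeval (fun o : Option (Fin n) => o.elim c f) G =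
      aeval (fun o : Option (Fin n) => o.elim c f) G0 := fun c => by
    rw [hG, aeval_map_algebraMap]
  have hf1 : AlgebraicIndependent K f :=
    hind.comp (fun i => e.symm i) e.symm.injective
  obtain ⟨c, hc⟩ := exists_ne f hf1 G0 hG0ne
  refine rw_mono (hE n n (Bd E n D0 k) D0 κ Ω ι z f (Y a) G hn hz
    (fun i => hY _ (e.symm i).2) (fun o => ?_) ?_ ⟨c, ?_⟩)
    ((le_max_right _ _).trans ((le_max_right _ _).trans (le_max_right _ _)))
  · have h1 : degreeOf o G ≤ degreeOf o G0 := by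
      rw [hG, degreeOf_def, degreeOf_def]
      exact Multiset.count_le_of_le _ degrees_map_le
    refine h1.trans ?_
    have h2 := degreeOf_rename_of_injective (p := g) φ.injective (φ.symm o)
    rw [Equiv.apply_symm_apply] at h2
    rw [hG0, h2]
    exact hD _
  · rw [hval, hG0, aeval_rename, hfun, hg0]
  · rw [hval]
    exact hc

end scale

/-! ## RELB -/

theorem t (hELMW : ELMW) (hJREL : JREL) (hA : ACLA) (hB : ACLB) (hP : ACLP) (hLAW : ELAW)
    (hDUP : EDUP) : RELB := by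
  intro D0 n
  choose E hE using hELMW
  choose A hAJ using hJREL
  have hEP : EP E := fun w s d D => hE w s d D
  refine ⟨A n (Bd E n D0 60), ?_⟩
  intro K Ω _ _ _ _ _ _ σ _ _ W hW a g x y t hσ hg hD hx hy ht hyt hgx hgy hind b hb
  have : CharZero Ω := charZero_of_injective_algebraMap (algebraMap K Ω).injective
  set κ : IntermediateField K Ω := acl K (∅ : Set Ω) with hκ
  set z : {c : σ // c ≠ a} → Ω := fun c => xc (x c) with hz
  have hcard : Fintype.card {c : σ // c ≠ a} = n := by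
    rw [Fintype.card_subtype_compl, Fintype.card_subtype_eq, hσ]
    rfl
  have hzκ : AlgebraicIndependent κ z := (hB K Ω).2.2.2 _ z hind
  have hC := cls hEP κ z n D0 hcard hzκ
  set Q : ℕ → Ω → Prop := fun k f => Rw κ z f (Bd E n D0 k) with hQ
  have hQz : ∀ c, c ≠ a → Q 0 (xc (x c)) := fun c hc => rw_z z ⟨c, hc⟩
  have hQa : Q 1 (xc (x a)) := root hEP κ z n D0 hcard hzκ a hσ g hg hD (fun b => xc (x b)) 0
    hQz hgx hind
  have hQpa : Q 10 (ps (x a)) := hC.psi (W a) (x a) (hx a) hQa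
  -- the points of `κ`
  have hIP : ∀ i c, c ≠ a → Q 0 (xc (t i c)) ∧ Q 0 (ps (t i c)) := by
    intro i c hc
    rcases ht i c hc with h | ⟨h1, h2⟩
    · rw [h]
      exact ⟨hC.cst κ.zero_mem, hC.cst κ.zero_mem⟩
    · exact ⟨hC.cst h1, hC.cst h2⟩
  have hQy : ∀ i c, c ≠ a → Q 21 (xc (y i c)) := by
    intro i c hc
    by_cases ht0 : t i c = 0
    · rw [hyt i c hc, ht0, add_zero]
      exact hC.mono (hQz c hc) (Nat.zero_le _)
    · rw [hyt i c hc]
      have hne : xc (x c) ≠ xc (t i c) := by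
        intro he
        have h1 : Transcendental κ (z ⟨c, hc⟩) := hzκ.transcendental ⟨c, hc⟩
        have h2 : xc (t i c) ∈ κ := by
          rcases ht i c hc with h | ⟨h1, -⟩
          · exact absurd h ht0
          · exact h1
        apply h1
        have h3 : z ⟨c, hc⟩ = algebraMap κ Ω ⟨xc (t i c), h2⟩ := he
        rw [h3]
        exact isAlgebraic_algebraMap _
      have hyc : x c + t i c ≠ 0 := by rw [← hyt i c hc]; exact hy i c
      have h1 := hC.sum hLAW (W c) (hW c) (k := 9) (x c) (t i c) (hx c) ht0 hyc hne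
        (hC.mono (hQz c hc) (by omega)) (hC.mono (hIP i c hc).1 (by omega))
        (hC.mono (hC.psi (W c) (x c) (hx c) (hQz c hc)) (by omega))
        (hC.mono (hIP i c hc).2 (by omega))
      exact h1
  -- the `Y_c` are independent
  have hYind : ∀ i, AlgebraicIndependent K (fun c : {c : σ // c ≠ a} => xc (y i c)) := by
    intro i
    rw [(hB K Ω).1]
    intro c0 hc0
    set V : {c : σ // c ≠ a} → Ω := fun c => xc (y i c) with hV
    set T : Finset Ω := (Finset.univ.filter fun c : {c : σ // c ≠ a} => c ≠ c0).image V with hT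
    have hTs : (T : Set Ω) = V '' {c | c ≠ c0} := by
      rw [hT]
      ext w
      simp
    have hall : ∀ c : {c : σ // c ≠ a}, V c ∈ acl K (T : Set Ω) := by
      intro c
      by_cases hc : c = c0
      · rw [hc, hTs]
        exact hc0
      · refine (hA K Ω (T : Set Ω) (T : Set Ω)).2.1 ?_
        rw [hTs]
        exact ⟨c, hc, rfl⟩
    have hle : (∅ : Set Ω) ⊆ (T : Set Ω) := Set.empty_subset _
    have hκT : acl K (∅ : Set Ω) ≤ acl K (T : Set Ω) := (hA K Ω ∅ (T : Set Ω)).2.2.1 hle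
    have hxall : ∀ c : {c : σ // c ≠ a}, z c ∈ acl K (T : Set Ω) := by
      intro c
      have := hW c.1
      have h1 : IP (acl K (T : Set Ω) : Set Ω) (y i c.1) :=
        (hP K Ω (W c.1) (T : Set Ω) (y i c.1) (y i c.1) 0).1 (hall c)
      have h2 : IP (acl K (T : Set Ω) : Set Ω) (t i c.1) := by
        rcases ht i c.1 c.2 with h | ⟨h3, h4⟩
        · exact Or.inl h
        · exact Or.inr ⟨hκT h3, hκT h4⟩
      have h3 := ((hP K Ω (W c.1) (T : Set Ω) (y i c.1) (t i c.1) 0).2.2 h1 h2).2.1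
      have h4 : y i c.1 - t i c.1 = x c.1 := by rw [hyt i c.1 c.2, add_sub_cancel_right]
      rw [h4] at h3
      rcases h3 with h5 | h5
      · exact absurd h5 (hx c.1)
      · exact h5.1
    have hcnt := (hB K Ω).2.1 _ z T hind hxall
    have hTc : T.card ≤ (Finset.univ.filter fun c : {c : σ // c ≠ a} => c ≠ c0).card :=
      Finset.card_image_le
    have hlt : (Finset.univ.filter fun c : {c : σ // c ≠ a} => c ≠ c0).card <
        (Finset.univ : Finset {c : σ // c ≠ a}).card :=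
      Finset.card_lt_card (Finset.filter_ssubset.2 ⟨c0, Finset.mem_univ _, by simp⟩)
    rw [Finset.card_univ] at hlt
    omega
  have hQya : ∀ i, Q 22 (xc (y i a)) := fun i =>
    root hEP κ z n D0 hcard hzκ a hσ g hg hD (fun b => xc (y i b)) 21 (hQy i) (hgy i) (hYind i)
  have hQpy : ∀ i, Q 31 (ps (y i a)) := fun i => hC.psi (W a) (y i a) (hy i a) (hQya i)
  have hQu : ∀ i, Q 45 (xc (y i a - x a)) := fun i =>
    hC.dif hLAW hDUP (W a) (hW a) (k := 31) (y i a) (x a) (hy i a) (hx a)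
      (hC.mono (hQya i) (by omega)) (hC.mono hQa (by omega)) (hQpy i)
      (hC.mono hQpa (by omega))
  obtain ⟨R, hR1, hR2, hR3⟩ := hAJ n (Bd E n D0 60) κ Ω {c : σ // c ≠ a} z
    (fun o : Option (Fin n) => o.elim (xc (x b)) (fun i => xc (y i a - x a))) hcard hzκ
    (fun o => by
      cases o with
      | none => exact hC.mono (hQz b hb) (by omega)
      | some i => exact hC.mono (hQu i) (by omega))
  exact ⟨R, hR1, hR2, hR3⟩

end

end Pool.Agent.Helper34.TN.RELB
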